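import Mathlib
import Pool.Agent.Q303.CM.AbVar

/-!
# If the category of Chow motives over a finite field is abelian, then rational and numerical
equivalence agree on all abelian varieties

Let `k` be a finite field with `q` elements and let `C` be the category `CHMot(k)` of Chow motives
with rational coefficients, or a full subcategory which contains the unit and is closed under tensor
products, duals, direct sums and direct summands (for example the one generated by the motives of
abelian varieties, or of one abelian variety). Then `C` is a rigid symmetric tensor category over `ℚ`
with the following structure (`FrobeniusStructure q C`), all of which is known: `End(𝟙) = ℚ`; the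
Frobenius endomorphism `Fr M` of each motive, natural in `M` and compatible with tensor products; the
Lefschetz trace formula: the categorical trace (`catTrace`) of `(Fr M) ^ n` is the sum of the `n`-th
powers of the eigenvalues of Frobenius on the even cohomology of `M` (the multiset `Ev M`) minus the
same sum for the odd cohomology (the multiset `Od M`), for all `n ≥ 0`; and the weights (Deligne):
the elements of `Ev M` have absolute value `q ^ w` and those of `Od M` absolute value
`q ^ (w + 1 / 2)`, `w` an integer.

Cycles are the maps `z : 𝟙 ⟶ M`, for instance `CH^m(X)_ℚ = Hom(𝟙, h(X)(m))`, and `z` is numerically
trivial if `z ≫ w = 0` for all `w : M ⟶ 𝟙`.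

`AbelianType` is the smallest class of objects which contains the objects of pure parity with an action
of a finite étale `ℚ`-algebra `E` such that the trace of `x ∈ E` is `± Tr_{E/ℚ}(x)`, and which is closed
under tensor products, direct sums and direct summands. By Tate the algebra `End(A) ⊗ ℚ` of an abelian
variety `A` of dimension `g` over `k` contains an étale algebra `E` of degree `2 g`, and it acts on
`h¹(A)` with trace `- Tr_{E/ℚ}`; the Tate twists `𝟙(m)` have an action of `E = ℚ`. As `h(A)` is the
sum of the exterior powers of `h¹(A)`, all twists of the motives of abelian varieties over `k`, and of
the varieties whose motives are summands of these, are in the class, and so are their duals.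

**Theorem.** If `C` is an abelian category, then all numerically trivial cycles on objects of abelian
type are zero. More generally, `f : M ⟶ N` is zero if `N ⊗ Mᘁ` is of abelian type and all the
categorical traces of `f ≫ g`, `g : N ⟶ M`, vanish.

So if `CHMot(k)` is abelian then rational equivalence with rational coefficients coincides with
numerical equivalence on all abelian varieties over `k` (Beilinson's conjecture for them), and the full
subcategory of motives of abelian type is semisimple (Jannsen). In other words: **one non-zero
numerically trivial cycle on one abelian variety over a finite field `k` gives a negative answer to the
question**. It also gives the equivalence, for the category of motives of abelian type: it is abelian if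
and only if rational and numerical equivalence agree on abelian varieties.

In the proof the traces are shown to be additive on short exact sequences in the abelian category `C`
(whose exactness is *not* assumed to be compatible with any realisation functor), so `Ev` and `Od` are
additive; the unit object is simple; an object with `Ev = Od = ∅` is zero (no phantoms); the dimension
of `Hom(𝟙, M)` is at most the multiplicity of `1` in `Ev M`. If `z : 𝟙 ⟶ T` is numerically trivial and
`E` acts on `T` as above, then with the idempotent `e` of `E` generating the complement of the
annihilator of `z`, the object `e T` has `|Ev| + |Od| = dim (e E) ≤ dim Hom(𝟙, e T)`, hence is a sum of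
copies of `𝟙`, and `z` is split.
-/

set_option autoImplicit false

open CategoryTheory CategoryTheory.Limits MonoidalCategory

universe v u

namespace Pool.Agent.Results.MP_6c4da4_ag.AbelianVarieties

open Pool.Agent.Q303.CM Pool.Agent.Q303.CM.FrobeniusStructure

/-- **If Chow motives over a finite field form an abelian category, then numerically trivial
cycles on abelian varieties are rationally trivial.** -/
theorem result {C : Type u} [Category.{v} C] [Abelian C] [Linear ℚ C] [MonoidalCategory C]
    [MonoidalPreadditive C] [MonoidalLinear ℚ C] [SymmetricCategory C] [RightRigidCategory C]
    {q : ℝ} (hq : 1 < q) (D : FrobeniusStructure q C) :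
    (∀ T : C, AbelianType D T → ∀ z : 𝟙_ C ⟶ T, (∀ w : T ⟶ 𝟙_ C, z ≫ w = 0) → z = 0) ∧
    (∀ M N : C, AbelianType D (N ⊗ Mᘁ) → ∀ f : M ⟶ N,
      (∀ g : N ⟶ M, catTrace (f ≫ g) = 0) → f = 0) :=
  ⟨fun _ hT z hz => hT.zero_of_numTriv hq z hz,
    fun _ _ h f hf => h.zero_of_negligible hq f hf⟩

end Pool.Agent.Results.MP_6c4da4_ag.AbelianVarieties
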