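import Mathlib
import Pool.Agent.Q303.CM.Dual

/-!
# If Chow motives over a finite field form an abelian category: strong Lefschetz for Chow groups,
and rational equals numerical equivalence for one-cycles

Let `k` be a finite field with `q` elements and let `C = CHMot(k)` be the category of Chow motives
with rational coefficients (or a full rigid tensor subcategory closed under direct sums and summands).
Its known structure is recorded by `FrobeniusStructure q C`: `End(𝟙) = ℚ`; the Frobenius endomorphism
`Fr M` of each motive, natural and compatible with tensor products; the Lefschetz formula for the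
categorical trace of its powers, in terms of the multisets `Ev M` and `Od M` of the eigenvalues of
Frobenius on the even and on the odd cohomology; and the weights of these eigenvalues (Deligne).
A `Realisation` is a functor `H` from `C` to complex vector spaces of finite dimension, such that
`Ev M + Od M` is the multiset of the roots of the characteristic polynomial of `H(Fr M)`; for instance
`ℓ`-adic cohomology, with coefficients extended to `ℂ ≅ ℚ̄_ℓ`. Let `gen M ⊆ H(M)` be the generalized
eigenspace of `H(Fr M)` for the eigenvalue `1`. The Chow groups are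
`CH^m(X)_ℚ = Hom(𝟙, h(X)(m))`, and `gen (h(X)(m))` lies in `H^{2 m}(X)(m)`.

**Theorem.** Suppose that `C` is abelian. Let `f : A ⟶ B` be a morphism.
1. If `H(f)` is injective on `gen A` then `Hom(𝟙, A) → Hom(𝟙, B)` is injective.
2. If `H(f) : gen A → gen B` is bijective then `Hom(𝟙, A) → Hom(𝟙, B)` is bijective.
3. If `B = Aᘁ` is the dual of `A`, `H(f) : gen A → gen Aᘁ` is bijective, and the numerically trivial
   maps `𝟙 ⟶ A` are zero, then the numerically trivial maps `𝟙 ⟶ Aᘁ` are zero.

Let `X` be smooth projective of pure dimension `d` over `k`, `L` the class of an ample divisor,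
`2 m ≤ d`. By the hard Lefschetz theorem of Deligne and Poincaré duality the theorem applies to
`A = h(X)(m)`, `Aᘁ = h(X)(d - m)` and `f = L^{d - 2 m}`: **if `CHMot(k)` is abelian, then
`L^{d - 2 m} : CH^m(X)_ℚ → CH^{d - m}(X)_ℚ` is bijective for all `X` and `m`**, and rational and
numerical equivalence agree on `CH^{d - m}(X)_ℚ` if they do on `CH^m(X)_ℚ`. As numerically trivial
divisors over a finite field are torsion, **rational and numerical equivalence agree for one-cycles
(with rational coefficients) on all `X`, and for all cycles if `d ≤ 3`**. In other words a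
non-torsion, numerically trivial one-cycle on one smooth projective variety over one finite
field would answer the question negatively. Also, `CH^m(X)_ℚ → CH^m(Y)_ℚ` is bijective for smooth
hyperplane sections `Y` of `X` and `2 m < d - 1` (weak Lefschetz).

No exactness of `H` is assumed. The proof uses: the additivity of the traces on short exact sequences
of `C`; no phantoms; `dim Hom(𝟙, M) ≤` multiplicity of `1` in `Ev M`; and the splitting of extensions
of `𝟙` by objects without the eigenvalue `1`.
-/

set_option autoImplicit false

open CategoryTheory CategoryTheory.Limits MonoidalCategory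

universe v u w

namespace Pool.Agent.Results.MP_6c4da4_ag.LefschetzForCycles

open Pool.Agent.Q303.CM Pool.Agent.Q303.CM.FrobeniusStructure

/-- **Abelian categories of Chow motives over finite fields: morphisms which are bijective on
the generalized `1`-eigenspace of Frobenius are bijective on cycles; numerical equivalence.** -/
theorem result {C : Type u} [Category.{v} C] [Abelian C] [Linear ℚ C] [MonoidalCategory C]
    [MonoidalPreadditive C] [MonoidalLinear ℚ C] [SymmetricCategory C] [RightRigidCategory C]
    {q : ℝ} (hq : 1 < q) (D : FrobeniusStructure q C) (W : Realisation.{v, u, w} D) :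
    (∀ (A B : C) (f : A ⟶ B), Set.InjOn (W.H.map f).hom (W.gen A) →
      Function.Injective (fun x : 𝟙_ C ⟶ A => x ≫ f)) ∧
    (∀ (A B : C) (f : A ⟶ B), Set.BijOn (W.H.map f).hom (W.gen A) (W.gen B) →
      Function.Bijective (fun x : 𝟙_ C ⟶ A => x ≫ f)) ∧
    (∀ (A : C) (f : A ⟶ Aᘁ), Set.BijOn (W.H.map f).hom (W.gen A) (W.gen (Aᘁ)) →
      (∀ z : 𝟙_ C ⟶ A, (∀ w : A ⟶ 𝟙_ C, z ≫ w = 0) → z = 0) →
      ∀ z : 𝟙_ C ⟶ Aᘁ, (∀ w : Aᘁ ⟶ 𝟙_ C, z ≫ w = 0) → z = 0) :=
  ⟨fun _ _ f hf => W.injective_comp hq f hf, fun _ _ f hf => W.bijective_comp hq f hf,
    fun _ f hf hA z hz => W.dual_numTriv hq f hf hA z hz⟩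

end Pool.Agent.Results.MP_6c4da4_ag.LefschetzForCycles
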