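import Mathlib
import Pool.Agent.Q303.CM.Fin

/-!
# If Chow motives over a finite field form an abelian category: Chow groups are finite-dimensional,
of dimension at most the order of the pole of the zeta function; Tate implies Beilinson

Let `k` be a finite field with `q` elements and let `C = CHMot(k)` be the category of Chow motives
with rational coefficients (or a full rigid tensor subcategory closed under direct sums and summands).
Its known structure is recorded by `FrobeniusStructure q C`: `End(𝟙) = ℚ`; the Frobenius endomorphism
`Fr M` of each motive, natural and compatible with tensor products; the Lefschetz formula for the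
categorical trace of its powers, in terms of the multisets `Ev M` and `Od M` of the eigenvalues of
Frobenius on the even and on the odd cohomology; and the weights of these eigenvalues (Deligne).
Cycles are maps `𝟙 ⟶ M`, for instance `CH^m(X)_ℚ = Hom(𝟙, h(X)(m))`; the multiplicity of `1` in
`Ev (h(X)(m))` is the multiplicity of `q ^ m` as an eigenvalue of Frobenius on `H^{2 m}(X)`, i.e. the
order of the pole of the zeta function of `X` at `s = m`.

**Theorem.** Suppose that `C` is an abelian category.
1. All the groups `Hom(𝟙, M)` are finite-dimensional, and `dim Hom(𝟙, M)` is at most the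
   multiplicity of `1` in `Ev M`.
2. Suppose that this multiplicity is `n` and there are `n` cycles `z i : 𝟙 ⟶ M` which are linearly
   independent modulo numerical equivalence (there are `w j : M ⟶ 𝟙` with `z i ≫ w j = δ_{ij}`).
   Then all the numerically trivial maps `𝟙 ⟶ M` are zero.

So **if `CHMot(k)` is abelian then `dim CH^m(X)_ℚ ≤ - ord_{s = m} ζ(X, s) < ∞` for all smooth
projective `X` over `k` and all `m`**, in particular the Chow groups `CH^m(X)_ℚ`, and all the spaces
of morphisms in `CHMot(k)`, are finite-dimensional; and the strong form of the Tate conjecture for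
`X` and `m` (the order of the pole is the rank of the group of cycles modulo numerical equivalence)
implies that rational and numerical equivalence agree on `CH^m(X)_ℚ`. As `CHMot(k)` is abelian if
rational and numerical equivalence agree (Jannsen), **under the strong Tate conjecture over `k` the
question is equivalent to Beilinson's conjecture that rational and numerical equivalence agree over
`k`**.
-/

set_option autoImplicit false

open CategoryTheory CategoryTheory.Limits MonoidalCategory

universe v u

namespace Pool.Agent.Results.MP_6c4da4_ag.PoleOrderBound

open Pool.Agent.Q303.CM Pool.Agent.Q303.CM.FrobeniusStructure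

/-- **Abelian categories of Chow motives over finite fields: the dimension of the Chow groups
is at most the multiplicity of the eigenvalue, and Tate implies Beilinson.** -/
theorem result {C : Type u} [Category.{v} C] [Abelian C] [Linear ℚ C] [MonoidalCategory C]
    [MonoidalPreadditive C] [MonoidalLinear ℚ C] [SymmetricCategory C] [RightRigidCategory C]
    {q : ℝ} (hq : 1 < q) (D : FrobeniusStructure q C) (M : C) :
    (Module.Finite ℚ (𝟙_ C ⟶ M) ∧ Module.finrank ℚ (𝟙_ C ⟶ M) ≤ (D.Ev M).count 1) ∧
    (∀ (n : ℕ) (z : Fin n → (𝟙_ C ⟶ M)) (w : Fin n → (M ⟶ 𝟙_ C)),
      (∀ i j, z i ≫ w j = if i = j then 𝟙 (𝟙_ C) else 0) → (D.Ev M).count 1 = n →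
      ∀ y : 𝟙_ C ⟶ M, (∀ t : M ⟶ 𝟙_ C, y ≫ t = 0) → y = 0) :=
  ⟨⟨D.finite_hom hq M, D.finrank_le hq M⟩,
    fun _ z w hzw hn y hy => D.zero_of_tate hq hn z w hzw y hy⟩

end Pool.Agent.Results.MP_6c4da4_ag.PoleOrderBound
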