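import Mathlib
import Pool.Agent.Q303.CM.SepMain

/-!
# If Chow motives over a finite field form an abelian category: rational equals numerical
equivalence on products of varieties with separable Frobenius (hypersurfaces, K3 surfaces, ...)

Let `k` be a finite field with `q` elements and let `C = CHMot(k)` be the category of Chow motives
with rational coefficients (or a full rigid tensor subcategory closed under direct sums and summands,
for example the one generated by one variety). Its known structure is recorded by
`FrobeniusStructure q C`: `End(𝟙) = ℚ`; the Frobenius endomorphism `Fr M` of each motive, natural and
compatible with tensor products; the Lefschetz formula for the categorical trace of its powers, in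
terms of the multisets `Ev M` and `Od M` of the eigenvalues of Frobenius on the even and on the odd
cohomology; and the weights of these eigenvalues (Deligne). Cycles are maps `z : 𝟙 ⟶ M`, for instance
`CH^m(X)_ℚ = Hom(𝟙, h(X)(m))`.

`SeparableType` is the smallest class of objects which contains the objects of pure parity on
whose cohomology the eigenvalues of Frobenius are pairwise distinct, and is closed under tensor
products, direct sums and direct summands. It contains the Tate twists `𝟙(m)`. So it contains `h(X)`
and all its twists if `h(X)` is a direct sum of motives `𝟙(-j)` and of one motive `P` of pure parity
such that Frobenius has distinct eigenvalues on `H(P)`: for instance smooth hypersurfaces and complete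
intersections for which Frobenius has distinct eigenvalues on the primitive middle cohomology (this
holds for almost all hypersurfaces: Katz, Chavdarov), or surfaces with `b₁ = 0`, such as K3 surfaces,
for which this holds for the transcendental part (all K3 surfaces of finite height for which the
transcendental part of the characteristic polynomial is not a proper power).

**Theorem.** If `C` is an abelian category, then all numerically trivial cycles on objects of
separable type are zero. More generally, `f : M ⟶ N` is zero if `N ⊗ Mᘁ` is of separable type and all
the categorical traces of `f ≫ g`, `g : N ⟶ M`, vanish.

So **if `CHMot(k)` is abelian, then rational and numerical equivalence agree on all products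
`X₁ × … × X_n` of such varieties, in all codimensions**, and the category generated by them is
semisimple. Neither the Tate conjecture nor any finite-dimensionality in the sense of Kimura is
assumed for these varieties.

In the proof one first shows, from the abelian category `C`, the additivity of traces, the absence of
phantoms and the finiteness of all `Hom` spaces, that a polynomial in Frobenius which vanishes at all
the eigenvalues kills an object `M` with distinct eigenvalues. So the finite étale algebra `ℚ[Fr M]`
acts on `M` with a multiplicity free character. Tensor products of such actions are again
multiplicity free, and if `z : 𝟙 ⟶ T` is numerically trivial, `e` the idempotent generating the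
complement of the annihilator of `z` in the algebra `R` acting on `T`, then `e T` has at most
`dim (e R) ≤ dim Hom(𝟙, e T)` eigenvalues; hence `e T` is a sum of copies of `𝟙`, and `z` splits.
-/

set_option autoImplicit false

open CategoryTheory CategoryTheory.Limits MonoidalCategory

universe v u

namespace Pool.Agent.Results.MP_6c4da4_ag.SeparableFrobenius

open Pool.Agent.Q303.CM Pool.Agent.Q303.CM.FrobeniusStructure

/-- **If Chow motives over a finite field form an abelian category, then numerically trivial
cycles on products of varieties with separable Frobenius are rationally trivial.** -/
theorem result {C : Type u} [Category.{v} C] [Abelian C] [Linear ℚ C] [MonoidalCategory C]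
    [MonoidalPreadditive C] [MonoidalLinear ℚ C] [SymmetricCategory C] [RightRigidCategory C]
    {q : ℝ} (hq : 1 < q) (D : FrobeniusStructure q C) :
    (∀ T : C, SeparableType D T → ∀ z : 𝟙_ C ⟶ T, (∀ w : T ⟶ 𝟙_ C, z ≫ w = 0) → z = 0) ∧
    (∀ M N : C, SeparableType D (N ⊗ Mᘁ) → ∀ f : M ⟶ N,
      (∀ g : N ⟶ M, catTrace (f ≫ g) = 0) → f = 0) :=
  ⟨fun _ hT z hz => hT.zero_of_numTriv hq z hz,
    fun _ _ h f hf => h.zero_of_negligible hq f hf⟩

end Pool.Agent.Results.MP_6c4da4_ag.SeparableFrobenius
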